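import Pool.Agent.helper11.VQ.Spec3a

/-!
# Row `vq:UNZ` (MP_07c750): kernels with values in `[0, ∞]` as integrals over paths
-/

set_option autoImplicit false

open scoped ENNReal ComplexConjugate
open MeasureTheory Filter Set

namespace Pool.Agent.VQ

theorem UNZ_proof (hVXZ : VXZ_stmt) : UNZ_stmt := by
  intro Y _ m _ s hs n
  obtain ⟨hvx2, hvx3, hvxc, hsig, hlint, -⟩ := hVXZ Y m
  induction n generalizing s with
  | zero =>
    refine ⟨hs 0, ?_⟩
    intro g h
    have := hsig 0
    have e1 : ∀ v : Fin 0 → Y, ∏ j ∈ Finset.range (0 + 1), s j (vz g h v j) (vz g h v (j + 1)) = s 0 g h := by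
      intro v
      rw [zero_add, Finset.prod_range_one]
      obtain ⟨h1, h2⟩ := hvx3 0 g h v
      rw [h1, h2]
    have e2 : mZ m 0 univ = 1 := by
      unfold mZ
      rw [← Set.pi_univ univ, Measure.pi_pi]
      simp
    rw [lintegral_congr e1, lintegral_const, e2, mul_one]
    rfl
  | succ n ih =>
    obtain ⟨ihm, ihf⟩ := ih (fun j => s (j + 1)) (fun j => hs (j + 1))
    constructor
    · have h1 : Measurable fun q : (Y × Y) × Y =>
          s 0 q.1.1 q.2 * pE m n (fun j => s (j + 1)) q.2 q.1.2 := by
        have m1 : Measurable fun q : (Y × Y) × Y => s 0 q.1.1 q.2 :=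
          (hs 0).comp (measurable_fst.fst.prodMk measurable_snd)
        have m2 : Measurable fun q : (Y × Y) × Y =>
            pE m n (fun j => s (j + 1)) q.2 q.1.2 :=
          ihm.comp (measurable_snd.prodMk measurable_fst.snd)
        exact m1.mul m2
      exact h1.lintegral_prod_right'
    · intro g h
      have := hsig n
      have := hsig (n + 1)
      -- the integrand of the induction step
      have hmv : Measurable fun q : Y × (Fin n → Y) =>
          ∏ j ∈ Finset.range (n + 1), s (j + 1) (vz q.1 h q.2 j) (vz q.1 h q.2 (j + 1)) := by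
        refine Finset.measurable_fun_prod _ fun j _ => ?_
        have c : ∀ i, Measurable fun q : Y × (Fin n → Y) => vz q.1 h q.2 i := by
          intro i
          exact (hvxc n i).comp ((measurable_fst.prodMk measurable_const).prodMk measurable_snd)
        exact (hs (j + 1)).comp ((c j).prodMk (c (j + 1)))
      have hf : Measurable fun q : Y × (Fin n → Y) => s 0 g q.1 *
          ∏ j ∈ Finset.range (n + 1), s (j + 1) (vz q.1 h q.2 j) (vz q.1 h q.2 (j + 1)) :=
        ((hs 0).comp (measurable_const.prodMk measurable_fst)).mul hmv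
      have key := hlint n _ hf
      have e1 : ∀ v : Fin (n + 1) → Y,
          ∏ j ∈ Finset.range (n + 1 + 1), s j (vz g h v j) (vz g h v (j + 1)) =
            s 0 g (v 0) * ∏ j ∈ Finset.range (n + 1), s (j + 1) (vz (v 0) h (fun i : Fin n => v i.succ) j)
              (vz (v 0) h (fun i : Fin n => v i.succ) (j + 1)) := by
        intro v
        have e0 : s 0 (vz g h v 0) (vz g h v (0 + 1)) = s 0 g (v 0) := by
          rw [(hvx3 (n + 1) g h v).1, hvx2 n g h v 0, (hvx3 n (v 0) h _).1]
        have e2 : ∏ j ∈ Finset.range (n + 1), s (j + 1) (vz g h v (j + 1)) (vz g h v (j + 1 + 1)) =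
            ∏ j ∈ Finset.range (n + 1), s (j + 1) (vz (v 0) h (fun i : Fin n => v i.succ) j)
              (vz (v 0) h (fun i : Fin n => v i.succ) (j + 1)) := by
          refine Finset.prod_congr rfl fun j _ => ?_
          rw [hvx2 n g h v j, hvx2 n g h v (j + 1)]
        rw [Finset.prod_range_succ', e0, e2, mul_comm]
      rw [lintegral_congr e1]
      refine Eq.trans ?_ key.symm
      show ∫⁻ p, s 0 g p * pE m n (fun j => s (j + 1)) p h ∂m = _
      refine lintegral_congr fun p => ?_
      rw [ihf p h]
      have hmp : Measurable fun v : Fin n → Y =>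
          ∏ j ∈ Finset.range (n + 1), s (j + 1) (vz p h v j) (vz p h v (j + 1)) :=
        hmv.comp (measurable_const.prodMk measurable_id)
      exact (lintegral_const_mul _ hmp).symm

end Pool.Agent.VQ
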