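import Pool.Agent.helper74.VQ.SpecC

/-!
# Row `vq:VUM` (MP_07c750): measurability, range and composition of the step kernels
-/

set_option autoImplicit false

open scoped MatrixGroups ContDiff Topology UpperHalfPlane ComplexConjugate ENNReal
open UpperHalfPlane MeasureTheory Filter Set

namespace Pool.Agent.VQ

open Pool.Agent.RS

noncomputable section

theorem VUM_sec : SecondCountableTopology SL(2, ℝ) := A_GLC.2.1

/-- the facts on the measure which are used -/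
structure VUM_M (Γ : Subgroup SL(2, ℝ)) (F : Set ℍ) (W : Set ℝ) : Prop where
  sf : SigmaFinite mP
  Wm : MeasurableSet W
  mp : ∀ g : SL(2, ℝ), MeasurePreserving (fun p : SL(2, ℝ) × ℝ => (g * p.1, p.2)) mP mP
  vol : ∀ T : ℝ, mP ({g | dist (g • I : ℍ) I ≤ T} ×ˢ W) < ⊤
  mz : ∀ γ : Γ, MeasurePreserving (fun z : ℍ => γ • z) volume volume
  dm : Dm Γ F

/-- kernels with energies in the window -/
def VUM_S (W : Set ℝ) (K : SL(2, ℝ) × ℝ → SL(2, ℝ) × ℝ → ℂ) : Prop := ∀ p q, K p q ≠ 0 → p.2 ∈ W ∧ q.2 ∈ W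

theorem VUM_cont : Continuous fun g : SL(2, ℝ) => (g • I : ℍ) := continuous_id.smul continuous_const

theorem VUM_isom (g : SL(2, ℝ)) (z w : ℍ) : dist (g • z) (g • w) = dist z w := dist_smul g z w

theorem VUM_isom' (g h : SL(2, ℝ)) : dist ((g⁻¹ * h) • I : ℍ) I = dist (g • I : ℍ) (h • I) := by
  rw [← VUM_isom g, smul_smul, mul_inv_cancel_left, dist_comm]

theorem VUM_emb (g : SL(2, ℝ)) : MeasurableEmbedding fun p : SL(2, ℝ) × ℝ => (g * p.1, p.2) := by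
  have := VUM_sec
  exact ((Homeomorph.mulLeft g).prodCongr (Homeomorph.refl ℝ)).measurableEmbedding

/-- uniform volumes -/
theorem VUM_vol {Γ : Subgroup SL(2, ℝ)} {F : Set ℍ} {W : Set ℝ} (hM : VUM_M Γ F W) (T : ℝ) :
    ∀ p : SL(2, ℝ) × ℝ, MeasurableSet {q : SL(2, ℝ) × ℝ | q.2 ∈ W ∧ dW p q ≤ T} ∧
      mP {q : SL(2, ℝ) × ℝ | q.2 ∈ W ∧ dW p q ≤ T} ≤ mP ({g | dist (g • I : ℍ) I ≤ T} ×ˢ W) := by
  intro p
  have hcl : MeasurableSet {g : SL(2, ℝ) | dist (g • I : ℍ) I ≤ T} :=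
    (isClosed_le (VUM_cont.dist continuous_const) continuous_const).measurableSet
  have hset : {q : SL(2, ℝ) × ℝ | q.2 ∈ W ∧ dW p q ≤ T} =
      (fun q : SL(2, ℝ) × ℝ => (p.1⁻¹ * q.1, q.2)) ⁻¹' ({g | dist (g • I : ℍ) I ≤ T} ×ˢ W) := by
    ext q
    simp only [mem_setOf_eq, mem_preimage, mem_prod, VUM_isom', dW]
    tauto
  rw [hset]
  have hms := (hcl.prod hM.Wm)
  exact ⟨(hM.mp p.1⁻¹).measurable hms, le_of_eq ((hM.mp p.1⁻¹).measure_preimage hms.nullMeasurableSet)⟩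

theorem VUM_ex {X : Type} [MeasurableSpace X] {μ : Measure X} {f g : X → ℂ} (h : ∫ x, f x * g x ∂μ ≠ 0) :
    ∃ x, f x ≠ 0 ∧ g x ≠ 0 := by
  by_contra hcon
  push Not at hcon
  apply h
  have : ∀ x, f x * g x = 0 := by
    intro x
    by_cases hf : f x = 0
    · rw [hf, zero_mul]
    · rw [hcon x hf, mul_zero]
  simp only [this, integral_zero]

/-- integrals against a kernel -/
theorem VUM_int {Γ : Subgroup SL(2, ℝ)} {F : Set ℍ} {W : Set ℝ} (hM : VUM_M Γ F W)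
    {K : SL(2, ℝ) × ℝ → SL(2, ℝ) × ℝ → ℂ} (hK : KZ Γ dW K) (hS : VUM_S W K) :
    ∃ V : ℝ, 0 ≤ V ∧ ∀ (v : SL(2, ℝ) × ℝ → ℂ) (b : ℝ), Measurable v → (∀ q, ‖v q‖ ≤ b) → ∀ p,
      Integrable (fun q => K p q * v q) mP ∧ ‖∫ q, K p q * v q ∂mP‖ ≤ V * b := by
  obtain ⟨B, hB⟩ := hK.bdd
  obtain ⟨T, hT⟩ := hK.range
  have hB0 : 0 ≤ B := (norm_nonneg _).trans (hB 1 1)
  refine ⟨B * (mP ({g | dist (g • I : ℍ) I ≤ T} ×ˢ W)).toReal, mul_nonneg hB0 ENNReal.toReal_nonneg, ?_⟩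
  intro v b hv hb p
  have hb0 : 0 ≤ b := (norm_nonneg _).trans (hb 1)
  obtain ⟨hSm, hSv⟩ := VUM_vol hM T p
  set S := {q : SL(2, ℝ) × ℝ | q.2 ∈ W ∧ dW p q ≤ T} with hSdef
  have hSfin : mP S < ⊤ := hSv.trans_lt (hM.vol T)
  have hle : ∀ q, ‖K p q * v q‖ ≤ S.indicator (fun _ => B * b) q := by
    intro q
    by_cases hq : q ∈ S
    · rw [indicator_of_mem hq, norm_mul]
      exact mul_le_mul (hB p q) (hb q) (norm_nonneg _) hB0
    · rw [indicator_of_notMem hq]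
      have : K p q = 0 := by
        by_contra h
        exact hq ⟨(hS p q h).2, hT p q h⟩
      rw [this, zero_mul, norm_zero]
  have hint : Integrable (S.indicator fun _ => B * b) mP :=
    (integrable_indicator_iff hSm).2 (integrableOn_const hSfin.ne)
  have hmeas : AEStronglyMeasurable (fun q => K p q * v q) mP :=
    ((hK.meas.comp measurable_prodMk_left).mul hv).aestronglyMeasurable
  refine ⟨hint.mono' hmeas (Eventually.of_forall hle), ?_⟩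
  refine (norm_integral_le_of_norm_le hint (Eventually.of_forall hle)).trans ?_
  rw [integral_indicator_const _ hSm, smul_eq_mul]
  have h1 : mP.real S ≤ (mP ({g | dist (g • I : ℍ) I ≤ T} ×ˢ W)).toReal :=
    ENNReal.toReal_mono (hM.vol T).ne hSv
  have h2 := mul_le_mul_of_nonneg_right h1 (mul_nonneg hB0 hb0)
  refine h2.trans (le_of_eq ?_)
  ring

/-- composition -/
theorem VUM_cmp {Γ : Subgroup SL(2, ℝ)} {F : Set ℍ} {W : Set ℝ} (hM : VUM_M Γ F W)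
    {K L : SL(2, ℝ) × ℝ → SL(2, ℝ) × ℝ → ℂ} (hK : KZ Γ dW K) (hS : VUM_S W K) (hL : KZ Γ dW L) (hS' : VUM_S W L) :
    KZ Γ dW (cmpP K L) ∧ VUM_S W (cmpP K L) := by
  have := hM.sf
  obtain ⟨V, hV0, hV⟩ := VUM_int hM hK hS
  obtain ⟨B, hB⟩ := hL.bdd
  obtain ⟨T, hT⟩ := hK.range
  obtain ⟨T', hT'⟩ := hL.range
  refine ⟨⟨?_, ⟨V * B, fun p q => ?_⟩, ?_, ⟨T + T', fun p q h => ?_⟩⟩, fun p q h => ?_⟩
  · have h1 : Measurable (Function.uncurry fun (y : (SL(2, ℝ) × ℝ) × (SL(2, ℝ) × ℝ)) (x : SL(2, ℝ) × ℝ) =>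
        K y.1 x * L x y.2) := by
      have m1 : Measurable fun y : ((SL(2, ℝ) × ℝ) × (SL(2, ℝ) × ℝ)) × (SL(2, ℝ) × ℝ) => K y.1.1 y.2 :=
        hK.meas.comp (measurable_fst.fst.prodMk measurable_snd)
      have m2 : Measurable fun y : ((SL(2, ℝ) × ℝ) × (SL(2, ℝ) × ℝ)) × (SL(2, ℝ) × ℝ) => L y.2 y.1.2 :=
        hL.meas.comp (measurable_snd.prodMk measurable_fst.snd)
      exact m1.mul m2
    exact (h1.stronglyMeasurable.integral_prod_right (ν := mP)).measurable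
  · exact (hV (fun x => L x q) B (hL.meas.comp measurable_prodMk_right) (fun x => hB x q) p).2
  · intro γ p q
    have h1 := (hM.mp (γ : SL(2, ℝ))).integral_comp (VUM_emb (γ : SL(2, ℝ))) (fun x => K (γ • p) x * L x (γ • q))
    show ∫ x, K (γ • p) x * L x (γ • q) ∂mP = ∫ x, K p x * L x q ∂mP
    rw [← h1]
    refine integral_congr_ae (Eventually.of_forall fun x => ?_)
    show K (γ • p) (γ • x) * L (γ • x) (γ • q) = K p x * L x q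
    rw [hK.inv, hL.inv]
  · obtain ⟨x, hx1, hx2⟩ := VUM_ex h
    have h1 : dW p q ≤ dW p x + dW x q := dist_triangle _ _ _
    linarith [hT p x hx1, hT' x q hx2]
  · obtain ⟨x, hx1, hx2⟩ := VUM_ex h
    exact ⟨(hS p x hx1).1, (hS' x q hx2).2⟩

/-- the operator of a composition -/
theorem VUM_fub {Γ : Subgroup SL(2, ℝ)} {F : Set ℍ} {W : Set ℝ} (hM : VUM_M Γ F W)
    {K L : SL(2, ℝ) × ℝ → SL(2, ℝ) × ℝ → ℂ} (hK : KZ Γ dW K) (hS : VUM_S W K) (hL : KZ Γ dW L) (hS' : VUM_S W L)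
    {v : SL(2, ℝ) × ℝ → ℂ} (hv : Measurable v) {b : ℝ} (hb : ∀ q, ‖v q‖ ≤ b) (p : SL(2, ℝ) × ℝ) :
    Op (cmpP K L) v p = Op K (Op L v) p := by
  have := hM.sf
  have := VUM_sec
  obtain ⟨B, hB⟩ := hK.bdd
  obtain ⟨B', hB'⟩ := hL.bdd
  obtain ⟨T, hT⟩ := hK.range
  obtain ⟨T', hT'⟩ := hL.range
  have hB0 : 0 ≤ B := (norm_nonneg _).trans (hB 1 1)
  have hB0' : 0 ≤ B' := (norm_nonneg _).trans (hB' 1 1)
  obtain ⟨hSm, hSv⟩ := VUM_vol hM T p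
  obtain ⟨hSm', hSv'⟩ := VUM_vol hM (T + T') p
  set S := {q : SL(2, ℝ) × ℝ | q.2 ∈ W ∧ dW p q ≤ T} with hSdef
  set S' := {q : SL(2, ℝ) × ℝ | q.2 ∈ W ∧ dW p q ≤ T + T'} with hSdef'
  have hSfin : mP S < ⊤ := hSv.trans_lt (hM.vol T)
  have hSfin' : mP S' < ⊤ := hSv'.trans_lt (hM.vol (T + T'))
  have hle : ∀ y : (SL(2, ℝ) × ℝ) × (SL(2, ℝ) × ℝ), ‖K p y.2 * L y.2 y.1 * v y.1‖ ≤
      (S' ×ˢ S).indicator (fun _ => B * B' * b) y := by
    intro y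
    by_cases hy : y ∈ S' ×ˢ S
    · rw [indicator_of_mem hy, norm_mul, norm_mul]
      exact mul_le_mul (mul_le_mul (hB p y.2) (hB' y.2 y.1) (norm_nonneg _) hB0) (hb y.1) (norm_nonneg _)
        (mul_nonneg hB0 hB0')
    · rw [indicator_of_notMem hy]
      have : K p y.2 * L y.2 y.1 = 0 := by
        by_contra h
        have h1 : K p y.2 ≠ 0 := fun h0 => h (by rw [h0, zero_mul])
        have h2 : L y.2 y.1 ≠ 0 := fun h0 => h (by rw [h0, mul_zero])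
        have h3 : dW p y.1 ≤ dW p y.2 + dW y.2 y.1 := dist_triangle _ _ _
        exact hy ⟨⟨(hS' _ _ h2).2, by linarith [hT _ _ h1, hT' _ _ h2]⟩, ⟨(hS _ _ h1).2, hT _ _ h1⟩⟩
      rw [this, zero_mul, norm_zero]
  have hfin : (mP.prod mP) (S' ×ˢ S) ≠ ⊤ := by
    rw [Measure.prod_prod]
    exact ENNReal.mul_ne_top hSfin'.ne hSfin.ne
  have hint : Integrable ((S' ×ˢ S).indicator fun _ => B * B' * b) (mP.prod mP) :=
    (integrable_indicator_iff (hSm'.prod hSm)).2 (integrableOn_const hfin)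
  have hmeas : Measurable fun y : (SL(2, ℝ) × ℝ) × (SL(2, ℝ) × ℝ) => K p y.2 * L y.2 y.1 * v y.1 := by
    have m1 : Measurable fun y : (SL(2, ℝ) × ℝ) × (SL(2, ℝ) × ℝ) => K p y.2 :=
      hK.meas.comp (measurable_const.prodMk measurable_snd)
    have m2 : Measurable fun y : (SL(2, ℝ) × ℝ) × (SL(2, ℝ) × ℝ) => L y.2 y.1 :=
      hL.meas.comp (measurable_snd.prodMk measurable_fst)
    exact (m1.mul m2).mul (hv.comp measurable_fst)
  have hI : Integrable (Function.uncurry fun q x : SL(2, ℝ) × ℝ => K p x * L x q * v q) (mP.prod mP) :=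
    hint.mono' hmeas.aestronglyMeasurable (Eventually.of_forall hle)
  have h1 := integral_integral_swap hI
  calc Op (cmpP K L) v p = ∫ q, ∫ x, K p x * L x q * v q ∂mP ∂mP := by
        refine integral_congr_ae (Eventually.of_forall fun q => ?_)
        exact (integral_mul_const (v q) fun x => K p x * L x q).symm
    _ = ∫ x, ∫ q, K p x * L x q * v q ∂mP ∂mP := h1
    _ = Op K (Op L v) p := by
        refine integral_congr_ae (Eventually.of_forall fun x => ?_)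
        show ∫ q, K p x * L x q * v q ∂mP = K p x * ∫ q, L x q * v q ∂mP
        rw [← integral_const_mul]
        refine integral_congr_ae (Eventually.of_forall fun q => ?_)
        exact mul_assoc _ _ _

/-- the operator preserves the class `FP` -/
theorem VUM_FP {Γ : Subgroup SL(2, ℝ)} {F : Set ℍ} {W : Set ℝ} (hM : VUM_M Γ F W)
    {K : SL(2, ℝ) × ℝ → SL(2, ℝ) × ℝ → ℂ} (hK : KZ Γ dW K) (hS : VUM_S W K)
    {v : SL(2, ℝ) × ℝ → ℂ} (hv : FP Γ F v) : FP Γ F (Op K v) := by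
  have := hM.sf
  obtain ⟨V, hV0, hV⟩ := VUM_int hM hK hS
  obtain ⟨b, hb⟩ := hv.bdd
  refine ⟨?_, ⟨V * b, fun p => (hV v b hv.meas hb p).2⟩, ?_, ?_⟩
  · have h1 : Measurable (Function.uncurry fun (p q : SL(2, ℝ) × ℝ) => K p q * v q) :=
      hK.meas.mul (hv.meas.comp measurable_snd)
    exact (h1.stronglyMeasurable.integral_prod_right (ν := mP)).measurable
  · intro γ p
    have h1 := (hM.mp (γ : SL(2, ℝ))).integral_comp (VUM_emb (γ : SL(2, ℝ))) (fun x => K (γ • p) x * v x)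
    show ∫ x, K (γ • p) x * v x ∂mP = ∫ x, K p x * v x ∂mP
    rw [← h1]
    refine integral_congr_ae (Eventually.of_forall fun x => ?_)
    show K (γ • p) (γ • x) * v ((γ : SL(2, ℝ)) * x.1, x.2) = K p x * v x
    rw [hK.inv, hv.inv]
  · rcases hM.dm with ⟨-, hF⟩ | ⟨-, hF⟩
    · obtain ⟨K0, hK0, hFK⟩ := hF.rel
      obtain ⟨c, hc⟩ := hK0.isBounded.subset_closedBall I
      exact ⟨c, fun p hp _ => hc (hFK hp)⟩
    · obtain ⟨c, hc⟩ := hv.supp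
      obtain ⟨T, hT⟩ := hK.range
      refine ⟨T + c, fun p _ hp => ?_⟩
      obtain ⟨q, hq1, hq2⟩ := VUM_ex hp
      have h1 : dist (p.1 • I : ℍ) I ≤ dW p q + dist (q.1 • I : ℍ) I := dist_triangle _ _ _
      have h2 := hc q (by rw [hF]; exact mem_univ _) hq2
      linarith [hT p q hq1]

open Classical in
/-- the general form of the step kernels -/
def VUM_K (D : Dyn) (τ r : ℝ) (W : Set ℝ) (Ψ G : SL(2, ℝ) × ℝ → ℍ → ℂ) (p q : SL(2, ℝ) × ℝ) : ℂ :=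
  if p.2 ∈ W ∧ q.2 ∈ W ∧ Nb r (D.ph τ p) q then ∫ z : ℍ, conj (Ψ p z) * G q z else 0

theorem VUM_ker {Γ : Subgroup SL(2, ℝ)} {F : Set ℍ} {W : Set ℝ} (hM : VUM_M Γ F W) (D : Dyn) (τ r B T : ℝ)
    (Ψ G : SL(2, ℝ) × ℝ → ℍ → ℂ) (hW : ∀ E ∈ W, |E| ≤ 1 / 8)
    (hΨ : ContinuousOn (fun x : (SL(2, ℝ) × ℝ) × ℍ => Ψ x.1 x.2) {x | |x.1.2| ≤ 1 / 8})
    (hΨi : ∀ (γ : Γ) (p : SL(2, ℝ) × ℝ) (z : ℍ), Ψ ((γ : SL(2, ℝ)) * p.1, p.2) (γ • z) = Ψ p z)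
    (hG : Continuous (fun x : (SL(2, ℝ) × ℝ) × ℍ => G x.1 x.2))
    (hGi : ∀ (γ : Γ) (p : SL(2, ℝ) × ℝ) (z : ℍ), G ((γ : SL(2, ℝ)) * p.1, p.2) (γ • z) = G p z)
    (hB : ∀ p q : SL(2, ℝ) × ℝ, p.2 ∈ W → q.2 ∈ W → ‖∫ z : ℍ, conj (Ψ p z) * G q z‖ ≤ B)
    (hfl : ContinuousOn (fun p : SL(2, ℝ) × ℝ => D.fl p.2 τ p.1) {p | |p.2| ≤ 1 / 8})
    (hflγ : ∀ (γ : Γ) (p : SL(2, ℝ) × ℝ), D.fl p.2 τ ((γ : SL(2, ℝ)) * p.1) = (γ : SL(2, ℝ)) * D.fl p.2 τ p.1)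
    (hT : ∀ p q : SL(2, ℝ) × ℝ, p.2 ∈ W → Nb r (D.ph τ p) q → dW p q ≤ T)
    (hBo : MeasurableSet (Bo r)) : KZ Γ dW (VUM_K D τ r W Ψ G) ∧ VUM_S W (VUM_K D τ r W Ψ G) := by
  classical
  have := VUM_sec
  have hc1 : MeasurableSet {x : (SL(2, ℝ) × ℝ) × ℍ | |x.1.2| ≤ 1 / 8} :=
    (isClosed_le (by fun_prop) continuous_const).measurableSet
  have hc2 : MeasurableSet {x : (SL(2, ℝ) × ℝ) × (SL(2, ℝ) × ℝ) | |x.1.2| ≤ 1 / 8} :=
    (isClosed_le (by fun_prop) continuous_const).measurableSet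
  -- the integral is measurable
  have hg : Measurable ({x : (SL(2, ℝ) × ℝ) × ℍ | |x.1.2| ≤ 1 / 8}.piecewise
      (fun x : (SL(2, ℝ) × ℝ) × ℍ => Ψ x.1 x.2) fun _ => (0 : ℂ)) :=
    hΨ.measurable_piecewise continuousOn_const hc1
  set g := {x : (SL(2, ℝ) × ℝ) × ℍ | |x.1.2| ≤ 1 / 8}.piecewise
      (fun x : (SL(2, ℝ) × ℝ) × ℍ => Ψ x.1 x.2) fun _ => (0 : ℂ) with hgdef
  have hI : Measurable fun y : (SL(2, ℝ) × ℝ) × (SL(2, ℝ) × ℝ) => ∫ z : ℍ, conj (g (y.1, z)) * G y.2 z := by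
    have h1 : Measurable (Function.uncurry fun (y : (SL(2, ℝ) × ℝ) × (SL(2, ℝ) × ℝ)) (z : ℍ) =>
        conj (g (y.1, z)) * G y.2 z) := by
      have m1 : Measurable fun y : ((SL(2, ℝ) × ℝ) × (SL(2, ℝ) × ℝ)) × ℍ => conj (g (y.1.1, y.2)) :=
        Complex.continuous_conj.measurable.comp (hg.comp (measurable_fst.fst.prodMk measurable_snd))
      have m2 : Measurable fun y : ((SL(2, ℝ) × ℝ) × (SL(2, ℝ) × ℝ)) × ℍ => G y.1.2 y.2 :=
        hG.measurable.comp (measurable_fst.snd.prodMk measurable_snd)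
      exact m1.mul m2
    exact (h1.stronglyMeasurable.integral_prod_right (ν := (volume : Measure ℍ))).measurable
  -- the condition is measurable
  have hfl2 : ContinuousOn (fun x : (SL(2, ℝ) × ℝ) × (SL(2, ℝ) × ℝ) => (D.fl x.1.2 τ x.1.1)⁻¹ * x.2.1)
      {x | |x.1.2| ≤ 1 / 8} := by
    have h1 : ContinuousOn (fun x : (SL(2, ℝ) × ℝ) × (SL(2, ℝ) × ℝ) => D.fl x.1.2 τ x.1.1) {x | |x.1.2| ≤ 1 / 8} :=
      hfl.comp continuous_fst.continuousOn fun x hx => hx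
    exact h1.inv.mul (continuous_snd.fst.continuousOn)
  have hh : Measurable ({x : (SL(2, ℝ) × ℝ) × (SL(2, ℝ) × ℝ) | |x.1.2| ≤ 1 / 8}.piecewise
      (fun x => (D.fl x.1.2 τ x.1.1)⁻¹ * x.2.1) fun _ => (1 : SL(2, ℝ))) :=
    hfl2.measurable_piecewise continuousOn_const hc2
  set h := {x : (SL(2, ℝ) × ℝ) × (SL(2, ℝ) × ℝ) | |x.1.2| ≤ 1 / 8}.piecewise
      (fun x => (D.fl x.1.2 τ x.1.1)⁻¹ * x.2.1) fun _ => (1 : SL(2, ℝ)) with hhdef
  have hS : MeasurableSet {x : (SL(2, ℝ) × ℝ) × (SL(2, ℝ) × ℝ) | x.1.2 ∈ W ∧ x.2.2 ∈ W ∧ Nb r (D.ph τ x.1) x.2} := by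
    have h1 : {x : (SL(2, ℝ) × ℝ) × (SL(2, ℝ) × ℝ) | x.1.2 ∈ W ∧ x.2.2 ∈ W ∧ Nb r (D.ph τ x.1) x.2} =
        {x | x.1.2 ∈ W} ∩ {x | x.2.2 ∈ W} ∩ (h ⁻¹' Bo r) ∩ {x | |x.1.2 - x.2.2| < r} := by
      ext x
      simp only [mem_inter_iff, mem_setOf_eq, mem_preimage]
      constructor
      · rintro ⟨a1, a2, a3, a4⟩
        refine ⟨⟨⟨a1, a2⟩, ?_⟩, a4⟩
        rw [hhdef, piecewise_eq_of_mem _ _ _ (show x ∈ {x : (SL(2, ℝ) × ℝ) × (SL(2, ℝ) × ℝ) | |x.1.2| ≤ 1 / 8} from hW _ a1)]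
        exact a3
      · rintro ⟨⟨⟨a1, a2⟩, a3⟩, a4⟩
        rw [hhdef, piecewise_eq_of_mem _ _ _ (show x ∈ {x : (SL(2, ℝ) × ℝ) × (SL(2, ℝ) × ℝ) | |x.1.2| ≤ 1 / 8} from hW _ a1)] at a3
        exact ⟨a1, a2, a3, a4⟩
    rw [h1]
    refine ((MeasurableSet.inter ?_ ?_).inter (hh hBo)).inter ?_
    · exact measurable_fst.snd hM.Wm
    · exact measurable_snd.snd hM.Wm
    · exact measurableSet_lt (by fun_prop) measurable_const
  refine ⟨⟨?_, ⟨max B 0, fun p q => ?_⟩, ?_, ⟨T, fun p q hpq => ?_⟩⟩, fun p q hpq => ?_⟩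
  · have h1 : Function.uncurry (VUM_K D τ r W Ψ G) =
        {x : (SL(2, ℝ) × ℝ) × (SL(2, ℝ) × ℝ) | x.1.2 ∈ W ∧ x.2.2 ∈ W ∧ Nb r (D.ph τ x.1) x.2}.indicator
          fun y => ∫ z : ℍ, conj (g (y.1, z)) * G y.2 z := by
      funext x
      by_cases hx : x ∈ {x : (SL(2, ℝ) × ℝ) × (SL(2, ℝ) × ℝ) | x.1.2 ∈ W ∧ x.2.2 ∈ W ∧ Nb r (D.ph τ x.1) x.2}
      · rw [indicator_of_mem hx]
        show (if _ then _ else _) = _
        rw [if_pos (show x.1.2 ∈ W ∧ x.2.2 ∈ W ∧ Nb r (D.ph τ x.1) x.2 from hx)]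
        refine integral_congr_ae (Eventually.of_forall fun z => ?_)
        show conj (Ψ x.1 z) * G x.2 z = conj (g (x.1, z)) * G x.2 z
        rw [hgdef, piecewise_eq_of_mem _ _ _ (show (x.1, z) ∈ {x : (SL(2, ℝ) × ℝ) × ℍ | |x.1.2| ≤ 1 / 8} from hW _ hx.1)]
      · rw [indicator_of_notMem hx]
        show (if _ then _ else _) = _
        rw [if_neg (show ¬(x.1.2 ∈ W ∧ x.2.2 ∈ W ∧ Nb r (D.ph τ x.1) x.2) from hx)]
    rw [h1]
    exact hI.indicator hS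
  · unfold VUM_K
    split_ifs with hx
    · exact (hB p q hx.1 hx.2.1).trans (le_max_left _ _)
    · rw [norm_zero]
      exact le_max_right _ _
  · intro γ p q
    have hcond : Nb r (D.ph τ (γ • p)) (γ • q) ↔ Nb r (D.ph τ p) q := by
      have h2 : (D.ph τ (γ • p)).1⁻¹ * (γ • q).1 = (D.ph τ p).1⁻¹ * q.1 := by
        show (D.fl p.2 τ ((γ : SL(2, ℝ)) * p.1))⁻¹ * ((γ : SL(2, ℝ)) * q.1) = (D.fl p.2 τ p.1)⁻¹ * q.1
        rw [hflγ γ p, mul_inv_rev, mul_assoc, inv_mul_cancel_left]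
      unfold Nb
      rw [h2]
      rfl
    have hint : ∫ z : ℍ, conj (Ψ (γ • p) z) * G (γ • q) z = ∫ z : ℍ, conj (Ψ p z) * G q z := by
      have he : MeasurableEmbedding fun z : ℍ => γ • z :=
        (Homeomorph.smul (γ : SL(2, ℝ))).measurableEmbedding
      have h1 := (hM.mz γ).integral_comp he (fun z => conj (Ψ (γ • p) z) * G (γ • q) z)
      rw [← h1]
      refine integral_congr_ae (Eventually.of_forall fun z => ?_)
      show conj (Ψ ((γ : SL(2, ℝ)) * p.1, p.2) (γ • z)) * G ((γ : SL(2, ℝ)) * q.1, q.2) (γ • z) = conj (Ψ p z) * G q z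
      rw [hΨi, hGi]
    unfold VUM_K
    by_cases hx : p.2 ∈ W ∧ q.2 ∈ W ∧ Nb r (D.ph τ p) q
    · rw [if_pos hx, if_pos ⟨hx.1, hx.2.1, hcond.2 hx.2.2⟩, hint]
    · rw [if_neg hx, if_neg fun h' => hx ⟨h'.1, h'.2.1, hcond.1 h'.2.2⟩]
  · unfold VUM_K at hpq
    split_ifs at hpq with hx
    · exact hT p q hx.1 hx.2.2
    · exact absurd rfl hpq
  · unfold VUM_K at hpq
    split_ifs at hpq with hx
    · exact ⟨hx.1, hx.2.1⟩
    · exact absurd rfl hpq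

theorem VUM_ev (C z2 e3 : ℝ) (hC : 1 ≤ C) (hz : z2 ≤ 1 / 8) (he : 0 < e3) : ∃ R0 : ℝ, 1 ≤ R0 ∧ ∀ R, R0 ≤ R →
    2 ≤ R ∧ 2 * R ^ (-(1 / 4) : ℝ) ≤ 1 / 8 ∧ 0 < R ^ (-(1 / 2) + z2) ∧ R ^ (-(1 / 2) + z2) ≤ 1 / 2 ∧
      C * R ^ (-(1 / 2) + z2) ≤ 1 / 2 ∧ C * R ^ (-(1 / 2) + z2) ≤ 4 / 5 * (e3 * Real.log R) ∧ 0 ≤ e3 * Real.log R := by
  have hC0 : 0 < C := by linarith
  have h1 : Tendsto (fun R : ℝ => R ^ (-(1 / 4) : ℝ)) atTop (𝓝 0) := tendsto_rpow_neg_atTop (by norm_num)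
  have h2 := h1.eventually_lt_const (u := 1 / (16 * C)) (by positivity)
  have h3 : ∀ᶠ R : ℝ in atTop, 1 / e3 ≤ Real.log R := Real.tendsto_log_atTop.eventually_ge_atTop (1 / e3)
  obtain ⟨R0, hR0⟩ := eventually_atTop.1 (h2.and (h3.and (eventually_ge_atTop 2)))
  refine ⟨max R0 1, le_max_right _ _, fun R hR => ?_⟩
  obtain ⟨a1, a2, a3⟩ := hR0 R ((le_max_left _ _).trans hR)
  have hR1 : (1 : ℝ) ≤ R := by linarith
  have hRp : (0 : ℝ) < R := by linarith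
  have hs : R ^ (-(1 / 2) + z2) ≤ R ^ (-(1 / 4) : ℝ) :=
    Real.rpow_le_rpow_of_exponent_le hR1 (by linarith)
  have a4 : C * R ^ (-(1 / 4) : ℝ) ≤ 1 / 16 := by
    have := mul_le_mul_of_nonneg_left a1.le hC0.le
    refine this.trans (le_of_eq ?_)
    field_simp
  have a5 : C * R ^ (-(1 / 2) + z2) ≤ 1 / 16 := (mul_le_mul_of_nonneg_left hs hC0.le).trans a4
  have a6 : 0 < R ^ (-(1 / 2) + z2) := Real.rpow_pos_of_pos hRp _
  have a7 : 0 < R ^ (-(1 / 4) : ℝ) := Real.rpow_pos_of_pos hRp _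
  have a8 : 1 ≤ e3 * Real.log R := by
    have := mul_le_mul_of_nonneg_left a2 he.le
    rwa [mul_one_div_cancel he.ne'] at this
  refine ⟨a3, ?_, a6, ?_, by linarith, by linarith, by linarith⟩
  · nlinarith
  · nlinarith

theorem VUM_comp1 (f : ((SL(2, ℝ) × ℝ) × ℝ) × ℍ → ℂ) (hf : ContinuousOn f {x | |x.1.1.2| ≤ 1 / 8}) (σ : ℝ) :
    ContinuousOn (fun x : (SL(2, ℝ) × ℝ) × ℍ => f ((x.1, σ), x.2)) {x | |x.1.2| ≤ 1 / 8} := by
  have h1 : Continuous fun x : (SL(2, ℝ) × ℝ) × ℍ => (((x.1, σ), x.2) : ((SL(2, ℝ) × ℝ) × ℝ) × ℍ) :=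
    (continuous_fst.prodMk continuous_const).prodMk continuous_snd
  have h2 : MapsTo (fun x : (SL(2, ℝ) × ℝ) × ℍ => (((x.1, σ), x.2) : ((SL(2, ℝ) × ℝ) × ℝ) × ℍ))
      {x | |x.1.2| ≤ 1 / 8} {x | |x.1.1.2| ≤ 1 / 8} := fun x hx => hx
  exact hf.comp h1.continuousOn h2

theorem VUM_comp2 (f : ℝ × ℝ × SL(2, ℝ) → SL(2, ℝ)) (hf : ContinuousOn f {p | |p.1| ≤ 1 / 8}) (τ : ℝ) :
    ContinuousOn (fun p : SL(2, ℝ) × ℝ => f (p.2, τ, p.1)) {p | |p.2| ≤ 1 / 8} := by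
  have h1 : Continuous fun p : SL(2, ℝ) × ℝ => ((p.2, τ, p.1) : ℝ × ℝ × SL(2, ℝ)) :=
    continuous_snd.prodMk (continuous_const.prodMk continuous_fst)
  have h2 : MapsTo (fun p : SL(2, ℝ) × ℝ => ((p.2, τ, p.1) : ℝ × ℝ × SL(2, ℝ))) {p | |p.2| ≤ 1 / 8}
      {p | |p.1| ≤ 1 / 8} := fun x hx => hx
  exact hf.comp h1.continuousOn h2

/-- **Row VUM** -/
theorem VUM_proof (hVPR : VPR_stmt) (hVQS : VQS_stmt) (hVBO : VBO_stmt) (hVUL : VUL_stmt) (hHFA : HFA_stmt)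
    (hVDM : VDM_stmt) (hVUB : VUB_stmt) : VUM_stmt := by
  classical
  obtain ⟨C1, hC1, -, hBom, hBod, -⟩ := hVBO
  obtain ⟨C2, hC2, hUL⟩ := hVUL
  refine ⟨max (max C1 C2) 8, le_trans (by norm_num) (le_max_right _ _), ?_⟩
  intro ch B A hch hA
  set C := max (max C1 C2) 8 with hCdef
  have hC8 : 8 ≤ C := le_max_right _ _
  have hCC1 : C1 ≤ C := (le_max_left _ _).trans (le_max_left _ _)
  have hCC2 : C2 ≤ C := (le_max_right _ _).trans (le_max_left _ _)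
  have he3 := hA.e3
  have hz0 : 0 < A.z := lt_of_lt_of_le (mul_pos (by linarith) hA.e3) hA.z
  have hz1 : A.z ≤ A.z1 := by nlinarith [hA.z1]
  have hz10 : 0 < A.z1 := lt_of_lt_of_le hz0 hz1
  have hz12 : A.z1 ≤ A.z2 := by nlinarith [hA.z2]
  have hz20 : 0 < A.z2 := lt_of_lt_of_le hz10 hz12
  have hm1 : (1 : ℝ) ≤ A.m := by exact_mod_cast hA.m
  have hzz : 8 * A.z2 ≤ 1 := by
    have h1 := hA.up
    have h2 : A.z2 ≤ A.m * A.z2 := by nlinarith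
    nlinarith
  have hRg : Rg C2 A.e3 A.z A.z1 := by
    refine ⟨he3.le, hz0, hz1, ?_, ?_⟩
    · have := hA.z
      nlinarith
    · have := hA.z2
      nlinarith
  obtain ⟨R1, hR1, hul⟩ := hUL ch A.e3 A.z A.z1 0 B hch hRg
  obtain ⟨R2, hR2, hqs⟩ := hVQS ch A.z hch hz0 (by linarith)
  obtain ⟨R3, hR3, hev⟩ := VUM_ev C A.z2 A.e3 (by linarith) (by linarith) he3
  refine ⟨max (max R1 R2) R3, hR3.trans (le_max_right _ _), ?_⟩
  intro R δ Γ F D hR hDm hOK hδ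
  have hRR1 : R1 ≤ R := ((le_max_left _ _).trans (le_max_left _ _)).trans hR
  have hRR2 : R2 ≤ R := ((le_max_right _ _).trans (le_max_left _ _)).trans hR
  obtain ⟨h2R, hW8, hr0, hr1, hCr, hCr', hσ0⟩ := hev R ((le_max_right _ _).trans hR)
  have hU : PU Γ D.U := (hVUB Γ δ B D.U hOK.pot hδ).1
  obtain ⟨hGc, -, hGi, -⟩ := hqs R Γ F D.U hRR2 hDm hU
  obtain ⟨-, -, -, hmz, hdm⟩ := hVDM Γ F hDm
  have hWabs : ∀ E ∈ Wi 2 R, |E| ≤ 1 / 8 := fun E hE => abs_le.2 ⟨by linarith [hE.1], by linarith [hE.2]⟩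
  have hWI : Wi 2 R ⊆ Icc (-1) 1 := fun E hE => by
    have := abs_le.1 (hWabs E hE)
    exact ⟨by linarith [this.1], by linarith [this.2]⟩
  have hWm : MeasurableSet (Wi 2 R) := measurableSet_Icc
  have hM : VUM_M Γ F (Wi 2 R) := by
    obtain ⟨b1, b2, -⟩ := hdm univ MeasurableSet.univ
    rw [univ_prod_univ, Measure.restrict_univ] at b1 b2
    refine ⟨b1, hWm, b2, fun T => ?_, hmz, hDm⟩
    have := (hdm (Wi 2 R) hWm).2.2.2.2.2 T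
    rwa [inter_eq_left.2 hWI] at this
  obtain ⟨hψc, -, -, -, -, -, hinv⟩ := hVPR ch A.z A.z1 R δ Γ B D hch hz10 (by linarith) h2R hOK hδ
  have hψσ : ContinuousOn (fun x : (SL(2, ℝ) × ℝ) × ℍ => psi D ch A.z A.z1 R (A.sg R) x.1 x.2) {x | |x.1.2| ≤ 1 / 8} :=
    VUM_comp1 (fun x : ((SL(2, ℝ) × ℝ) × ℝ) × ℍ => psi D ch A.z A.z1 R x.1.2 x.1.1 x.2) hψc (A.sg R)
  have hfl : ∀ τ : ℝ, ContinuousOn (fun p : SL(2, ℝ) × ℝ => D.fl p.2 τ p.1) {p | |p.2| ≤ 1 / 8} := by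
    intro τ
    exact VUM_comp2 (fun p : ℝ × ℝ × SL(2, ℝ) => D.fl p.1 p.2.1 p.2.2) hOK.cfl τ
  have hσ : A.sg R = A.e3 * Real.log R := rfl
  have hr : A.r R = R ^ (-(1 / 2) + A.z2) := rfl
  -- distances
  have hNbd : ∀ p q : SL(2, ℝ) × ℝ, Nb (A.r R) p q → dW p q ≤ C1 * A.r R := by
    intro p q h
    have h1 := hBod (A.r R) (p.1⁻¹ * q.1) (by rw [hr]; exact hr0) (by rw [hr]; exact hr1) h.1
    rwa [VUM_isom'] at h1
  have hC1r : C1 * A.r R ≤ C * A.r R := mul_le_mul_of_nonneg_right hCC1 (by rw [hr]; exact hr0.le)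
  have hph : ∀ p : SL(2, ℝ) × ℝ, p.2 ∈ Wi 2 R → dW p (D.ph (A.sg R) p) ≤ 6 / 5 * A.sg R := by
    intro p hp
    have h1 := (hHFA Γ δ B D hOK hδ p.2 0 (A.sg R) (hWabs _ hp) p.1).2.2.2
    rw [abs_of_nonneg (by rw [hσ]; exact hσ0)] at h1
    show dist (p.1 • I : ℍ) (D.fl p.2 (A.sg R) p.1 • I) ≤ _
    rw [dist_comm]
    exact h1
  have hT1 : ∀ p q : SL(2, ℝ) × ℝ, p.2 ∈ Wi 2 R → Nb (A.r R) (D.ph (A.sg R) p) q → dW p q ≤ 2 * A.sg R := by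
    intro p q hp hpq
    have h1 : dW p q ≤ dW p (D.ph (A.sg R) p) + dW (D.ph (A.sg R) p) q := dist_triangle _ _ _
    have h2 := hph p hp
    have h3 := hNbd _ _ hpq
    rw [hr, hσ] at *
    linarith
  have hph0 : ∀ p : SL(2, ℝ) × ℝ, D.ph 0 p = p := fun p => Prod.ext (hOK.fl0 p.2 p.1) rfl
  -- the two kernels
  have hGW : ∀ p : SL(2, ℝ) × ℝ, p.2 ∈ Wi 2 R → p ∈ GW 2 R := fun p hp => ⟨mem_univ _, hp⟩
  have hus := VUM_ker hM D (A.sg R) (A.r R) (R ^ (2 + C2 * A.z1)) (2 * A.sg R) (psi D ch A.z A.z1 R (A.sg R))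
    (Gp D.U ch A.z R) hWabs hψσ (fun γ p z => (hinv γ p (A.sg R)).2.2.2 z) hGc hGi
    (fun p q hp hq => (hul R δ (A.sg R) Γ D p q hRR1 hOK hδ (by rw [hσ]; exact hσ0) le_rfl (hGW p hp) (hGW q hq)).1)
    (hfl _) (fun γ p => (hinv γ p (A.sg R)).1) hT1 (hBom _)
  have hpr := VUM_ker hM D 0 (A.r R) (R ^ (2 + C2 * A.z1)) (C1 * A.r R) (Gp D.U ch A.z R)
    (Gp D.U ch A.z R) hWabs hGc.continuousOn hGi hGc hGi
    (fun p q hp hq => (hul R δ (A.sg R) Γ D p q hRR1 hOK hδ (by rw [hσ]; exact hσ0) le_rfl (hGW p hp) (hGW q hq)).2.2.2.1)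
    (hfl _) (fun γ p => (hinv γ p 0).1) (fun p q _ h => by
      rw [hph0] at h
      exact hNbd p q h) (hBom _)
  have hus_eq : us D ch A R = VUM_K D (A.sg R) (A.r R) (Wi 2 R) (psi D ch A.z A.z1 R (A.sg R)) (Gp D.U ch A.z R) := by
    funext p q
    unfold us VUM_K
    rfl
  have hpr_eq : pr D ch A R = VUM_K D 0 (A.r R) (Wi 2 R) (Gp D.U ch A.z R) (Gp D.U ch A.z R) := by
    funext p q
    unfold pr VUM_K
    rw [hph0]
  rw [← hus_eq] at hus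
  rw [← hpr_eq] at hpr
  have husm : ∀ k, KZ Γ dW (usm D ch A R k) ∧ VUM_S (Wi 2 R) (usm D ch A R k) := by
    intro k
    induction k with
    | zero => exact hpr
    | succ k ih => exact VUM_cmp hM hus.1 hus.2 ih.1 ih.2
  have hcond : ∀ p q, us D ch A R p q ≠ 0 → p.2 ∈ Wi 2 R ∧ q.2 ∈ Wi 2 R ∧ Nb (A.r R) (D.ph (A.sg R) p) q := by
    intro p q h
    by_contra hx
    apply h
    unfold us
    rw [if_neg hx]
  have hcond0 : ∀ p q, pr D ch A R p q ≠ 0 → p.2 ∈ Wi 2 R ∧ q.2 ∈ Wi 2 R ∧ Nb (A.r R) p q := by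
    intro p q h
    by_contra hx
    apply h
    unfold pr
    rw [if_neg hx]
  refine ⟨hus.1, fun k => (husm k).1, ?_, fun p q h => ⟨hGW p (hus.2 p q h).1, hGW q (hus.2 p q h).2⟩,
    fun k p q h => ⟨hGW p ((husm k).2 p q h).1, hGW q ((husm k).2 p q h).2⟩, ?_, ?_⟩
  · intro k
    induction k with
    | zero =>
      intro p q h
      have h1 := hcond0 p q h
      refine ⟨h1, ?_⟩
      have h2 := hNbd p q h1.2.2
      rw [Nat.cast_zero, zero_mul, mul_zero, zero_add]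
      rw [hr] at *
      linarith
    | succ k ih =>
      intro p q h
      obtain ⟨x, hx1, hx2⟩ := VUM_ex (show ∫ x, us D ch A R p x * usm D ch A R k x q ∂mP ≠ 0 from h)
      have h1 := hcond p x hx1
      obtain ⟨h2, h3⟩ := ih x q hx2
      refine ⟨⟨x, h1.1, h1.2.1, h1.2.2, h2⟩, ?_⟩
      have h4 : dW p q ≤ dW p x + dW x q := dist_triangle _ _ _
      have h5 := hT1 p x h1.1 h1.2.2
      push_cast
      linarith
  · intro K v hK hS hv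
    exact VUM_FP hM hK (fun p q h => ⟨((hS p q h).1).2, ((hS p q h).2).2⟩) hv
  · intro k v p hv
    obtain ⟨b, hb⟩ := hv.bdd
    exact VUM_fub hM hus.1 hus.2 (husm k).1 (husm k).2 hv.meas hb p

end

end Pool.Agent.VQ
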