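import Pool.Agent.helper55.VQ.SpecD
import Pool.Agent.helper92.VQ.VUM

/-!
# Row `vq:EDM` (MP_07c750): all small steps
-/

set_option autoImplicit false

open scoped MatrixGroups ContDiff Topology UpperHalfPlane ComplexConjugate ENNReal
open UpperHalfPlane MeasureTheory Filter Set

namespace Pool.Agent.VQ

open Pool.Agent.RS
open Pool.Agent.RPQ (CEig mean VV IsOp)

noncomputable section

theorem EDM_add {Γ : Subgroup SL(2, ℝ)} {F : Set ℍ} {x y : SL(2, ℝ) × ℝ → ℂ} (hx : FP Γ F x) (hy : FP Γ F y) :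
    FP Γ F (fun p => x p + y p) := by
  obtain ⟨b, hb⟩ := hx.bdd
  obtain ⟨b', hb'⟩ := hy.bdd
  obtain ⟨c, hc⟩ := hx.supp
  obtain ⟨c', hc'⟩ := hy.supp
  refine ⟨hx.meas.add hy.meas, ⟨b + b', fun p => (norm_add_le _ _).trans (add_le_add (hb p) (hb' p))⟩, ?_,
    ⟨max c c', fun p hp hne => ?_⟩⟩
  · intro γ p
    show x ((γ : SL(2, ℝ)) * p.1, p.2) + y ((γ : SL(2, ℝ)) * p.1, p.2) = x p + y p
    rw [hx.inv, hy.inv]
  · by_cases h : x p = 0
    · have h' : y p ≠ 0 := fun h0 => hne (by rw [h, h0, add_zero])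
      exact (hc' p hp h').trans (le_max_right _ _)
    · exact (hc p hp h).trans (le_max_left _ _)

theorem EDM_mul {Γ : Subgroup SL(2, ℝ)} {F : Set ℍ} {H x : SL(2, ℝ) × ℝ → ℂ} (hm : Measurable H) (hb : ∀ p, ‖H p‖ ≤ 1)
    (hi : ∀ (γ : Γ) (p : SL(2, ℝ) × ℝ), H ((γ : SL(2, ℝ)) * p.1, p.2) = H p) (hx : FP Γ F x) :
    FP Γ F (fun p => H p * x p) := by
  obtain ⟨b, hb'⟩ := hx.bdd
  obtain ⟨c, hc⟩ := hx.supp
  refine ⟨hm.mul hx.meas, ⟨b, fun p => ?_⟩, ?_, ⟨c, fun p hp hne => ?_⟩⟩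
  · rw [norm_mul]
    have h1 := mul_le_mul (hb p) (hb' p) (norm_nonneg _) zero_le_one
    rwa [one_mul] at h1
  · intro γ p
    show H ((γ : SL(2, ℝ)) * p.1, p.2) * x ((γ : SL(2, ℝ)) * p.1, p.2) = H p * x p
    rw [hx.inv, hi]
  · exact hc p hp fun h0 => hne (by rw [h0, mul_zero])

theorem EDM_neg {Γ : Subgroup SL(2, ℝ)} {F : Set ℍ} {x : SL(2, ℝ) × ℝ → ℂ} (hx : FP Γ F x) :
    FP Γ F (fun p => -x p) := by
  have h1 := EDM_mul (H := fun _ => (-1 : ℂ)) measurable_const (fun p => by simp) (fun _ _ => rfl) hx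
  have h2 : (fun p => -x p) = fun p => (-1 : ℂ) * x p := by
    funext p
    ring
  rw [h2]
  exact h1

theorem EDM_sub {Γ : Subgroup SL(2, ℝ)} {F : Set ℍ} {x y : SL(2, ℝ) × ℝ → ℂ} (hx : FP Γ F x) (hy : FP Γ F y) :
    FP Γ F (fun p => x p - y p) := by
  have h1 := EDM_add hx (EDM_neg hy)
  have h2 : (fun p => x p - y p) = fun p => x p + -y p := by
    funext p
    ring
  rw [h2]
  exact h1

/-- integrability on the window -/
theorem EDM_int {Γ : Subgroup SL(2, ℝ)} {F : Set ℍ} {R : ℝ} (hdG : MeasurableSet (dG F)) (hW : Wi 2 R ⊆ Icc (-1) 1)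
    (hv : ∀ b : ℝ, mP ({g | dist (g • I : ℍ) I ≤ b} ×ˢ (Wi 2 R ∩ Icc (-1) 1)) < ⊤)
    {x : SL(2, ℝ) × ℝ → ℂ} (hx : FP Γ F x) : Integrable (fun p => ‖x p‖ ^ 2) (mP.restrict (PW F 2 R)) := by
  obtain ⟨b, hb⟩ := hx.bdd
  obtain ⟨c, hc⟩ := hx.supp
  have hWm : MeasurableSet (Wi 2 R) := measurableSet_Icc
  have hPW : MeasurableSet (PW F 2 R) := hdG.prod hWm
  have hcl : MeasurableSet {g : SL(2, ℝ) | dist (g • I : ℍ) I ≤ c} :=
    (isClosed_le (VUM_cont.dist continuous_const) continuous_const).measurableSet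
  have hSm : MeasurableSet ({g : SL(2, ℝ) | dist (g • I : ℍ) I ≤ c} ×ˢ (Wi 2 R ∩ Icc (-1) 1)) :=
    hcl.prod (hWm.inter measurableSet_Icc)
  have hI : Integrable (({g : SL(2, ℝ) | dist (g • I : ℍ) I ≤ c} ×ˢ (Wi 2 R ∩ Icc (-1) 1)).indicator fun _ => b ^ 2) mP :=
    (integrable_indicator_iff hSm).2 (integrableOn_const (hv c).ne)
  refine (hI.mono_measure Measure.restrict_le_self).mono' ((hx.meas.norm.pow_const 2).aestronglyMeasurable) ?_
  refine (ae_restrict_iff' hPW).2 (Eventually.of_forall fun p hp => ?_)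
  rw [Real.norm_of_nonneg (by positivity)]
  by_cases h : x p = 0
  · rw [h, norm_zero]
    refine le_trans (le_of_eq (by norm_num)) (indicator_nonneg (fun _ _ => sq_nonneg b) p)
  · have h1 := hc p hp.1 h
    have h2 : p ∈ ({g : SL(2, ℝ) | dist (g • I : ℍ) I ≤ c} ×ˢ (Wi 2 R ∩ Icc (-1) 1)) := ⟨h1, hp.2, hW hp.2⟩
    rw [indicator_of_mem h2]
    exact pow_le_pow_left₀ (norm_nonneg _) (hb p) 2

theorem EDM_three (a b c : ℂ) : ‖a + b + c‖ ^ 2 ≤ 3 * (‖a‖ ^ 2 + ‖b‖ ^ 2 + ‖c‖ ^ 2) := by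
  have h1 : ‖a + b + c‖ ≤ ‖a‖ + ‖b‖ + ‖c‖ := (norm_add_le _ _).trans (add_le_add (norm_add_le _ _) le_rfl)
  have h2 := pow_le_pow_left₀ (norm_nonneg _) h1 2
  nlinarith [sq_nonneg (‖a‖ - ‖b‖), sq_nonneg (‖a‖ - ‖c‖), sq_nonneg (‖b‖ - ‖c‖)]

theorem EDM_nP_nonneg (F : Set ℍ) (R : ℝ) (x : SL(2, ℝ) × ℝ → ℂ) : 0 ≤ nP F 2 R x :=
  integral_nonneg fun _ => by positivity

/-- the triangle inequality for three terms -/
theorem EDM_tri {Γ : Subgroup SL(2, ℝ)} {F : Set ℍ} {R : ℝ} (hdG : MeasurableSet (dG F)) (hW : Wi 2 R ⊆ Icc (-1) 1)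
    (hv : ∀ b : ℝ, mP ({g | dist (g • I : ℍ) I ≤ b} ×ˢ (Wi 2 R ∩ Icc (-1) 1)) < ⊤)
    {w x y z : SL(2, ℝ) × ℝ → ℂ} (hx : FP Γ F x) (hy : FP Γ F y) (hz : FP Γ F z)
    (h : ∀ p ∈ GW 2 R, w p = x p + y p + z p) :
    nP F 2 R w ≤ 3 * (nP F 2 R x + nP F 2 R y + nP F 2 R z) := by
  have ix := EDM_int hdG hW hv hx
  have iy := EDM_int hdG hW hv hy
  have iz := EDM_int hdG hW hv hz
  have hWm : MeasurableSet (Wi 2 R) := measurableSet_Icc
  have hPW : MeasurableSet (PW F 2 R) := hdG.prod hWm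
  have h1 : nP F 2 R w ≤ ∫ p in PW F 2 R, 3 * (‖x p‖ ^ 2 + ‖y p‖ ^ 2 + ‖z p‖ ^ 2) ∂mP := by
    refine integral_mono_of_nonneg (Eventually.of_forall fun p => by positivity) (((ix.add iy).add iz).const_mul 3) ?_
    refine (ae_restrict_iff' hPW).2 (Eventually.of_forall fun p hp => ?_)
    show ‖w p‖ ^ 2 ≤ 3 * (‖x p‖ ^ 2 + ‖y p‖ ^ 2 + ‖z p‖ ^ 2)
    rw [h p ⟨mem_univ _, hp.2⟩]
    exact EDM_three _ _ _
  refine h1.trans (le_of_eq ?_)
  have ixy : Integrable (fun p => ‖x p‖ ^ 2 + ‖y p‖ ^ 2) (mP.restrict (PW F 2 R)) := ix.add iy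
  rw [integral_const_mul, integral_add ixy iz, integral_add ix iy]
  rfl

/-- equality on the window -/
theorem EDM_eq {F : Set ℍ} {R : ℝ} (hdG : MeasurableSet (dG F)) {w x : SL(2, ℝ) × ℝ → ℂ}
    (h : ∀ p ∈ GW 2 R, ‖w p‖ = ‖x p‖) : nP F 2 R w = nP F 2 R x := by
  have hWm : MeasurableSet (Wi 2 R) := measurableSet_Icc
  have hPW : MeasurableSet (PW F 2 R) := hdG.prod hWm
  refine setIntegral_congr_fun hPW fun p hp => ?_
  show ‖w p‖ ^ 2 = ‖x p‖ ^ 2
  rw [h p ⟨mem_univ _, hp.2⟩]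

/-- the number theory of the exponents -/
theorem EDM_num (m : ℕ) (R : ℝ) (hR : (20 : ℝ) ^ (560 * m) ≤ R) (hR1 : 1 ≤ R) :
    (20 : ℝ) ^ m * R ^ (-(1 / 70) : ℝ) ≤ R ^ (-(1 / 80) : ℝ) := by
  have hR0 : 0 < R := by linarith
  have h1 : (20 : ℝ) ^ m ≤ R ^ (1 / 560 : ℝ) := by
    have h2 : ((20 : ℝ) ^ (560 * m)) ^ (1 / 560 : ℝ) ≤ R ^ (1 / 560 : ℝ) :=
      Real.rpow_le_rpow (by positivity) hR (by norm_num)
    have h3 : ((20 : ℝ) ^ (560 * m)) ^ (1 / 560 : ℝ) = (20 : ℝ) ^ m := by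
      rw [mul_comm, pow_mul, ← Real.rpow_natCast ((20 : ℝ) ^ m) 560, ← Real.rpow_mul (by positivity)]
      norm_num
    rwa [h3] at h2
  have h4 : R ^ (-(1 / 80) : ℝ) = R ^ (1 / 560 : ℝ) * R ^ (-(1 / 70) : ℝ) := by
    rw [← Real.rpow_add hR0]
    norm_num
  rw [h4]
  exact mul_le_mul_of_nonneg_right h1 (Real.rpow_nonneg hR0.le _)

theorem EDM_exp (a b : ℝ) : ‖Complex.exp ((a : ℂ) * Complex.I) - Complex.exp ((b : ℂ) * Complex.I)‖ ≤ |a - b| := by
  have h1 : Complex.exp ((a : ℂ) * Complex.I) - Complex.exp ((b : ℂ) * Complex.I) =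
      Complex.exp ((b : ℂ) * Complex.I) * (Complex.exp (Complex.I * ((a - b : ℝ) : ℂ)) - 1) := by
    rw [mul_sub, ← Complex.exp_add, mul_one]
    congr 2
    push_cast
    ring
  rw [h1, norm_mul, Complex.norm_exp_ofReal_mul_I, one_mul]
  exact Real.norm_exp_I_mul_ofReal_sub_one_le

/-- **Row EDM** -/
theorem EDM_proof (hED1 : ED1_stmt) (hEDC : EDC_stmt) (hEDY : EDY_stmt) (hEDW : EDW_stmt) (hVTS : VTS_stmt)
    (hVTN : VTN_stmt) (hVUM : VUM_stmt) (hVDM : VDM_stmt) : EDM_stmt := by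
  classical
  obtain ⟨C1, hC1, h1⟩ := hED1
  obtain ⟨C2, hC2, h2⟩ := hEDC
  obtain ⟨C3, hC3, h3⟩ := hEDY
  obtain ⟨C4, hC4, h4⟩ := hEDW
  obtain ⟨C5, hC5, h5⟩ := hVTS
  obtain ⟨C6, hC6, h6⟩ := hVTN
  obtain ⟨C7, hC7, h7⟩ := hVUM
  refine ⟨C1 + C2 + C3 + C4 + C5 + C6 + C7, by linarith, ?_⟩
  intro ch B A hch hA
  obtain ⟨R1, hR1, h1⟩ := h1 ch B A hch (Adm_mono hA hC1 (by linarith))
  obtain ⟨R2, hR2, h2⟩ := h2 ch B A hch (Adm_mono hA hC2 (by linarith))
  obtain ⟨R3, hR3, h3⟩ := h3 B A (Adm_mono hA hC3 (by linarith))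
  obtain ⟨R4, hR4, h4⟩ := h4 ch B A hch (Adm_mono hA hC4 (by linarith))
  obtain ⟨R5, hR5, h5⟩ := h5 ch B A hch (Adm_mono hA hC5 (by linarith))
  obtain ⟨R6, hR6, h6⟩ := h6 ch B A hch (Adm_mono hA hC6 (by linarith))
  obtain ⟨R7, hR7, h7⟩ := h7 ch B A hch (Adm_mono hA hC7 (by linarith))
  have h20 : (0 : ℝ) ≤ 20 ^ (560 * A.m) := by positivity
  refine ⟨R1 + R2 + R3 + R4 + R5 + R6 + R7 + 16 + 20 ^ (560 * A.m), by linarith, ?_⟩
  intro R δ Γ F D f F' μ φ hR hΓ hF hD hδ hE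
  have hR16 : 16 ≤ R := by linarith
  have hRp : 0 < R := by linarith
  have hR1' : 1 ≤ R := by linarith
  have hDm : Dm Γ F := Or.inl ⟨hΓ, hF⟩
  obtain ⟨e1, e1'⟩ := h1 R δ Γ F D f F' μ φ (by linarith) hΓ hF hD hδ hE
  have e2 := h2 R δ (R ^ (-(1 / 4) : ℝ)) Γ F D
  obtain ⟨e3, e3'⟩ := h3 R δ Γ D f (by linarith) hD hδ hE.sm
  obtain ⟨e4, -, e4', -⟩ := h4 R δ Γ F D f F' μ φ (by linarith) hΓ hF hD hδ hE
  have e5 := fun v hv => (h5 R δ Γ F D v (by linarith) hDm hD hδ hv).2.2.1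
  obtain ⟨-, e6⟩ := h6 R δ Γ F D (by linarith) hDm hD hδ
  obtain ⟨k1, k2, -, k3, k4, k5, k6⟩ := h7 R δ Γ F D (by linarith) hDm hD hδ
  obtain ⟨-, -, -, hmz, hdm⟩ := hVDM Γ F hDm
  have hW4 : R ^ (-(1 / 4) : ℝ) ≤ 1 / 2 := by
    have a1 : (16 : ℝ) ^ (1 / 4 : ℝ) ≤ R ^ (1 / 4 : ℝ) := Real.rpow_le_rpow (by norm_num) hR16 (by norm_num)
    have a2 : (16 : ℝ) ^ (1 / 4 : ℝ) = 2 := by
      rw [show (16 : ℝ) = 2 ^ (4 : ℝ) by norm_num, ← Real.rpow_mul (by norm_num)]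
      norm_num
    rw [Real.rpow_neg hRp.le, inv_le_comm₀ (by positivity) (by norm_num)]
    rw [a2] at a1
    linarith
  have hWI : Wi 2 R ⊆ Icc (-1) 1 := fun E hE' => ⟨by linarith [hE'.1], by linarith [hE'.2]⟩
  have hWm : MeasurableSet (Wi 2 R) := measurableSet_Icc
  obtain ⟨-, -, -, -, hdG, hvol⟩ := hdm (Wi 2 R) hWm
  have hM : VUM_M Γ F (Wi 2 R) := by
    obtain ⟨b1, b2, -⟩ := hdm univ MeasurableSet.univ
    rw [univ_prod_univ, Measure.restrict_univ] at b1 b2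
    refine ⟨b1, hWm, b2, fun T => ?_, hmz, hDm⟩
    have := hvol T
    rwa [inter_eq_left.2 hWI] at this
  have hS1 : VUM_S (Wi 2 R) (us D ch A R) := fun p q h => ⟨(k3 p q h).1.2, (k3 p q h).2.2⟩
  -- the phases
  have hth := fun t => e6 f t hE.sm.inv
  set Φ := QF D.U ch A.z R φ with hΦ
  set N := nn F φ with hN
  have hN0 : 0 ≤ N := integral_nonneg fun _ => by positivity
  set H : ℝ → SL(2, ℝ) × ℝ → ℂ := fun t p => Complex.exp (((thP D f R t p : ℝ) : ℂ) * Complex.I) with hH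
  have hHm : ∀ t, Measurable (H t) := fun t =>
    Complex.measurable_exp.comp ((Complex.measurable_ofReal.comp (hth t).1).mul_const Complex.I)
  have hHn : ∀ t p, ‖H t p‖ = 1 := fun t p => Complex.norm_exp_ofReal_mul_I _
  have hHi : ∀ t (γ : Γ) (p : SL(2, ℝ) × ℝ), H t ((γ : SL(2, ℝ)) * p.1, p.2) = H t p := by
    intro t γ p
    show Complex.exp _ = Complex.exp _
    rw [(hth t).2.1]
  have hσ0 : 0 ≤ A.sg R := mul_nonneg hA.e3.le (Real.log_nonneg hR1')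
  have hVk : ∀ k, FP Γ F (Op (usm D ch A R k) Φ) := fun k => k5 _ _ (k2 k) (k4 k) e4
  have hHΦ : ∀ t, FP Γ F (fun p => H t p * Φ p) := fun t => EDM_mul (hHm t) (fun p => (hHn t p).le) (hHi t) e4
  have hUk : FP Γ F (Op (us D ch A R) Φ) := k5 _ _ k1 k3 e4
  -- the main estimate
  have hR70 : 0 ≤ R ^ (-(1 / 70) : ℝ) := Real.rpow_nonneg hRp.le _
  have key : ∀ k : ℕ, k ≤ A.m →
      nP F 2 R (fun p => Op (usm D ch A R k) Φ p - H (k * A.sg R) p * Φ p) ≤ 20 ^ k * (R ^ (-(1 / 70) : ℝ) * N) := by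
    intro k
    induction k with
    | zero =>
      intro _
      have a1 : nP F 2 R (fun p => Op (usm D ch A R 0) Φ p - H ((0 : ℕ) * A.sg R) p * Φ p) =
          nP F 2 R (fun p => Op (pr D ch A R) Φ p - Φ p) := by
        refine EDM_eq hdG fun p _ => ?_
        have : H ((0 : ℕ) * A.sg R) p = 1 := by
          show Complex.exp (((thP D f R ((0 : ℕ) * A.sg R) p : ℝ) : ℂ) * Complex.I) = 1
          unfold thP
          rw [Nat.cast_zero, zero_mul, intervalIntegral.integral_same, mul_zero, Complex.ofReal_zero, zero_mul,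
            Complex.exp_zero]
        rw [this, one_mul]
        rfl
      rw [a1, pow_zero, one_mul]
      refine e1'.trans (mul_le_mul_of_nonneg_right ?_ hN0)
      exact Real.rpow_le_rpow_of_exponent_le hR1' (by norm_num)
    | succ k ih =>
      intro hk
      have ih := ih (by omega)
      set σ := A.sg R with hσ
      -- the error
      set er : SL(2, ℝ) × ℝ → ℂ := fun p => Op (usm D ch A R k) Φ p - H (k * σ) p * Φ p with her
      have her' : FP Γ F er := EDM_sub (hVk k) (hHΦ _)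
      have hx : FP Γ F (Op (us D ch A R) er) := k5 _ _ k1 k3 her'
      have hHk : FP Γ F (Op (us D ch A R) (fun q => H (k * σ) q * Φ q)) := k5 _ _ k1 k3 (hHΦ _)
      -- the phase at the moved point
      set G : SL(2, ℝ) × ℝ → ℂ := fun p =>
        Complex.exp (((thP D f R ((k + 1 : ℕ) * σ) p - thP D f R σ p : ℝ) : ℂ) * Complex.I) with hG
      have hGm : Measurable G :=
        Complex.measurable_exp.comp ((Complex.measurable_ofReal.comp ((hth _).1.sub (hth _).1)).mul_const Complex.I)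
      have hGn : ∀ p, ‖G p‖ = 1 := fun p => Complex.norm_exp_ofReal_mul_I _
      have hGi : ∀ (γ : Γ) (p : SL(2, ℝ) × ℝ), G ((γ : SL(2, ℝ)) * p.1, p.2) = G p := by
        intro γ p
        show Complex.exp _ = Complex.exp _
        rw [(hth _).2.1, (hth _).2.1]
      have hGU : FP Γ F (fun p => G p * Op (us D ch A R) Φ p) := EDM_mul hGm (fun p => (hGn p).le) hGi hUk
      have hy : FP Γ F (fun p => Op (us D ch A R) (fun q => H (k * σ) q * Φ q) p - G p * Op (us D ch A R) Φ p) :=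
        EDM_sub hHk hGU
      have hz : FP Γ F (fun p => G p * (Op (us D ch A R) Φ p - H σ p * Φ p)) :=
        EDM_mul hGm (fun p => (hGn p).le) hGi (EDM_sub hUk (hHΦ _))
      have hGH : ∀ p, G p * H σ p = H ((k + 1 : ℕ) * σ) p := by
        intro p
        show Complex.exp _ * Complex.exp _ = Complex.exp _
        rw [← Complex.exp_add]
        congr 1
        push_cast
        ring
      have hGph : ∀ p ∈ GW 2 R, H (k * σ) (D.ph σ p) = G p := by
        intro p hp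
        have a1 := e3 σ (k * σ) p hp
        have a2 : σ + k * σ = ((k + 1 : ℕ) : ℝ) * σ := by
          push_cast
          ring
        rw [a2] at a1
        show Complex.exp _ = Complex.exp _
        rw [a1]
        congr 3
        ring
      -- the decomposition
      have hdec : ∀ p ∈ GW 2 R, Op (usm D ch A R (k + 1)) Φ p - H ((k + 1 : ℕ) * σ) p * Φ p =
          Op (us D ch A R) er p + (Op (us D ch A R) (fun q => H (k * σ) q * Φ q) p - G p * Op (us D ch A R) Φ p) +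
            G p * (Op (us D ch A R) Φ p - H σ p * Φ p) := by
        intro p _
        have a1 : Op (us D ch A R) (Op (usm D ch A R k) Φ) p = Op (us D ch A R) er p +
            Op (us D ch A R) (fun q => H (k * σ) q * Φ q) p := by
          obtain ⟨V, -, hV⟩ := VUM_int hM k1 hS1
          obtain ⟨b, hb⟩ := her'.bdd
          obtain ⟨b', hb'⟩ := (hHΦ (k * σ)).bdd
          have i1 := (hV er b her'.meas hb p).1
          have i2 := (hV (fun q => H (k * σ) q * Φ q) b' (hHΦ (k * σ)).meas hb' p).1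
          show ∫ q, us D ch A R p q * Op (usm D ch A R k) Φ q ∂mP = ∫ q, us D ch A R p q * er q ∂mP +
            ∫ q, us D ch A R p q * (H (k * σ) q * Φ q) ∂mP
          rw [← integral_add i1 i2]
          refine integral_congr_ae (Eventually.of_forall fun q => ?_)
          show us D ch A R p q * Op (usm D ch A R k) Φ q = us D ch A R p q * er q + us D ch A R p q * (H (k * σ) q * Φ q)
          rw [her]
          ring
        rw [k6 k Φ p e4, a1, ← hGH p]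
        ring
      -- the three estimates
      have n1 : nP F 2 R (Op (us D ch A R) er) ≤ 4 * (20 ^ k * (R ^ (-(1 / 70) : ℝ) * N)) := by
        have a1 := e5 er her'
        have a2 : (1 + R ^ (-(1 / 5) : ℝ)) ^ 2 ≤ 4 := by
          have b1 : R ^ (-(1 / 5) : ℝ) ≤ 1 := Real.rpow_le_one_of_one_le_of_nonpos hR1' (by norm_num)
          have b2 : 0 ≤ R ^ (-(1 / 5) : ℝ) := Real.rpow_nonneg hRp.le _
          nlinarith
        refine a1.trans ((mul_le_mul_of_nonneg_right a2 (EDM_nP_nonneg F R er)).trans ?_)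
        exact mul_le_mul_of_nonneg_left ih (by norm_num)
      have n2 : nP F 2 R (fun p => Op (us D ch A R) (fun q => H (k * σ) q * Φ q) p - G p * Op (us D ch A R) Φ p) ≤
          R ^ (-(1 / 70) : ℝ) * N := by
        have a1 : nP F 2 R (fun p => Op (us D ch A R) (fun q => H (k * σ) q * Φ q) p - G p * Op (us D ch A R) Φ p) =
            nP F 2 R (fun p => Op (us D ch A R) (fun q => H (k * σ) q * Φ q) p - H (k * σ) (D.ph (A.sg R) p) *
              Op (us D ch A R) Φ p) := by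
          refine EDM_eq hdG fun p hp => ?_
          rw [← hσ, hGph p hp]
        have hSV : SV Γ A R (R ^ (-(1 / 4) : ℝ)) (H (k * σ)) := by
          refine ⟨hHm _, hHi _, fun p => (hHn _ p).le, fun p q hp hq hpq => ?_⟩
          have b1 : (k : ℝ) * σ ≤ A.tu R := by
            show (k : ℝ) * σ ≤ A.m * A.sg R
            refine mul_le_mul_of_nonneg_right ?_ hσ0
            exact_mod_cast (by omega : k ≤ A.m)
          have b2 := e3' (k * σ) p q hp hq hpq (mul_nonneg (Nat.cast_nonneg k) hσ0) b1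
          refine le_trans ?_ b2
          exact EDM_exp _ _
        have a2 := e2 (H (k * σ)) Φ (by linarith) hDm hD hδ (Real.rpow_nonneg hRp.le _) hSV e4
        rw [a1]
        refine a2.trans ?_
        have b1 : (R ^ (-(1 / 4) : ℝ)) ^ 2 * R ^ (1 / 100 : ℝ) ≤ R ^ (-(1 / 70) : ℝ) := by
          rw [← Real.rpow_natCast, ← Real.rpow_mul hRp.le, ← Real.rpow_add hRp]
          exact Real.rpow_le_rpow_of_exponent_le hR1' (by norm_num)
        exact mul_le_mul b1 e4' (EDM_nP_nonneg F R Φ) hR70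
      have n3 : nP F 2 R (fun p => G p * (Op (us D ch A R) Φ p - H σ p * Φ p)) ≤ R ^ (-(1 / 70) : ℝ) * N := by
        have a1 : nP F 2 R (fun p => G p * (Op (us D ch A R) Φ p - H σ p * Φ p)) =
            nP F 2 R (fun p => Op (us D ch A R) Φ p - H σ p * Φ p) := by
          refine EDM_eq hdG fun p _ => ?_
          rw [norm_mul, hGn, one_mul]
        rw [a1]
        exact e1
      have tot := EDM_tri hdG hWI hvol hx hy hz hdec
      have hA0 : 0 ≤ R ^ (-(1 / 70) : ℝ) * N := mul_nonneg hR70 hN0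
      have h20k : (1 : ℝ) ≤ 20 ^ k := one_le_pow₀ (by norm_num)
      have hB0 : R ^ (-(1 / 70) : ℝ) * N ≤ 20 ^ k * (R ^ (-(1 / 70) : ℝ) * N) := by nlinarith
      have hfin : (20 : ℝ) ^ (k + 1) * (R ^ (-(1 / 70) : ℝ) * N) = 20 * (20 ^ k * (R ^ (-(1 / 70) : ℝ) * N)) := by
        rw [pow_succ]
        ring
      rw [hfin]
      refine tot.trans ?_
      linarith
  intro k hk
  have a1 := key k hk
  refine a1.trans ?_
  have a2 : (20 : ℝ) ^ k ≤ 20 ^ A.m := pow_le_pow_right₀ (by norm_num) hk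
  have a3 := EDM_num A.m R (by linarith) hR1'
  calc (20 : ℝ) ^ k * (R ^ (-(1 / 70) : ℝ) * N) ≤ 20 ^ A.m * (R ^ (-(1 / 70) : ℝ) * N) :=
        mul_le_mul_of_nonneg_right a2 (mul_nonneg hR70 hN0)
    _ = (20 ^ A.m * R ^ (-(1 / 70) : ℝ)) * N := by ring
    _ ≤ R ^ (-(1 / 80) : ℝ) * N := mul_le_mul_of_nonneg_right a3 hN0

end

end Pool.Agent.VQ
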