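import Pool.Agent.helper74.VQ.SpecA

/-!
# Row `vq:VDV` (MP_07c750): the derivative of the disc coordinate along a moving frame
-/

set_option autoImplicit false

open scoped MatrixGroups ContDiff Topology UpperHalfPlane ComplexConjugate
open UpperHalfPlane MeasureTheory Filter Set

namespace Pool.Agent.VQ

/-- numerator of `γ⁻¹ z` -/
noncomputable def VDV_N (g : SL(2, ℝ)) (z : ℍ) : ℂ := ((g.1 1 1 : ℝ) : ℂ) * z - ((g.1 0 1 : ℝ) : ℂ)

/-- denominator of `γ⁻¹ z` -/
noncomputable def VDV_D (g : SL(2, ℝ)) (z : ℍ) : ℂ := -((g.1 1 0 : ℝ) : ℂ) * z + ((g.1 0 0 : ℝ) : ℂ)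

theorem VDV_D_ne (g : SL(2, ℝ)) (z : ℍ) : VDV_D g z ≠ 0 := by
  intro h
  unfold VDV_D at h
  have h1 := congrArg Complex.im h
  have h2 := congrArg Complex.re h
  simp only [Complex.add_im, Complex.mul_im, Complex.neg_re, Complex.ofReal_re, Complex.neg_im, Complex.ofReal_im,
    neg_zero, zero_mul, add_zero, Complex.zero_im, Complex.add_re, Complex.mul_re, sub_zero, Complex.zero_re] at h1 h2
  have hz : (z : ℂ).im ≠ 0 := z.im_pos.ne'
  have hc : g.1 1 0 = 0 := by
    rcases mul_eq_zero.1 h1 with h3 | h3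
    · linarith
    · exact absurd h3 hz
  have ha : g.1 0 0 = 0 := by
    rw [hc] at h2
    linarith
  have hdet := g.2
  rw [Matrix.det_fin_two, ha, hc] at hdet
  simp at hdet

theorem VDV_coe (g : SL(2, ℝ)) (z : ℍ) : ((g⁻¹ • z : ℍ) : ℂ) = VDV_N g z / VDV_D g z := by
  rw [coe_specialLinearGroup_apply, Matrix.SpecialLinearGroup.SL2_inv_expl]
  unfold VDV_N VDV_D
  simp [sub_eq_add_neg]

theorem VDV_h_ne (g : SL(2, ℝ)) (z : ℍ) : VDV_N g z + Complex.I * VDV_D g z ≠ 0 := by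
  have h1 : VDV_N g z + Complex.I * VDV_D g z = VDV_D g z * (((g⁻¹ • z : ℍ) : ℂ) + Complex.I) := by
    rw [VDV_coe]
    have := VDV_D_ne g z
    field_simp
  rw [h1]
  refine mul_ne_zero (VDV_D_ne g z) fun h => ?_
  have h2 := congrArg Complex.im h
  simp only [Complex.add_im, Complex.I_im, Complex.zero_im] at h2
  have h3 : 0 < ((g⁻¹ • z : ℍ) : ℂ).im := (g⁻¹ • z).im_pos
  linarith

theorem VDV_cd (g : SL(2, ℝ)) (z : ℍ) : cd (g⁻¹ • z) =
    2 * (VDV_N g z - Complex.I * VDV_D g z) / (VDV_N g z + Complex.I * VDV_D g z) := by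
  unfold cd
  rw [VDV_coe]
  have h1 := VDV_D_ne g z
  have h2 := VDV_h_ne g z
  have h3 : VDV_N g z / VDV_D g z + Complex.I ≠ 0 := by
    intro h
    apply h2
    have : VDV_N g z + Complex.I * VDV_D g z = VDV_D g z * (VDV_N g z / VDV_D g z + Complex.I) := by
      field_simp
    rw [this, h, mul_zero]
  rw [div_eq_div_iff h3 h2]
  field_simp

theorem VDV_proof : VDV_stmt := by
  intro γ t α β z hγ
  have he : (fun s => cd ((γ s)⁻¹ • z)) = fun s =>
      2 * (VDV_N (γ s) z - Complex.I * VDV_D (γ s) z) / (VDV_N (γ s) z + Complex.I * VDV_D (γ s) z) := by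
    funext s
    exact VDV_cd (γ s) z
  have e00 := (hγ 0 0).ofReal_comp
  have e01 := (hγ 0 1).ofReal_comp
  have e10 := (hγ 1 0).ofReal_comp
  have e11 := (hγ 1 1).ofReal_comp
  have hN : HasDerivAt (fun s => VDV_N (γ s) z) (-((α : ℂ) * VDV_N (γ t) z + (β : ℂ) * VDV_D (γ t) z) / 2) t := by
    have h1 := (e11.mul_const (z : ℂ)).sub e01
    refine h1.congr_deriv ?_
    unfold VDV_N VDV_D
    simp [Matrix.mul_apply, Fin.sum_univ_two, A0, K0]
    ring
  have hD : HasDerivAt (fun s => VDV_D (γ s) z) (((α : ℂ) * VDV_D (γ t) z + (β : ℂ) * VDV_N (γ t) z) / 2) t := by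
    have h1 := (e10.neg.mul_const (z : ℂ)).add e00
    refine h1.congr_deriv ?_
    unfold VDV_N VDV_D
    simp [Matrix.mul_apply, Fin.sum_univ_two, A0, K0]
    ring
  rw [he, VDV_cd (γ t) z]
  have hh := VDV_h_ne (γ t) z
  have h1 := ((hN.sub (hD.const_mul Complex.I)).const_mul 2).div (hN.add (hD.const_mul Complex.I)) hh
  refine h1.congr_deriv ?_
  simp only [Pi.add_apply, Pi.sub_apply]
  generalize VDV_N (γ t) z = N at *
  generalize VDV_D (γ t) z = D at *
  have hI : Complex.I ^ 2 = -1 := Complex.I_sq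
  have e1 : -((α : ℂ) * N + (β : ℂ) * D) / 2 - Complex.I * (((α : ℂ) * D + (β : ℂ) * N) / 2) =
      -((α : ℂ) / 2) * (N + Complex.I * D) - (Complex.I * β / 2) * (N - Complex.I * D) := by
    linear_combination (-((β : ℂ) * D / 2)) * hI
  have e2 : -((α : ℂ) * N + (β : ℂ) * D) / 2 + Complex.I * (((α : ℂ) * D + (β : ℂ) * N) / 2) =
      -((α : ℂ) / 2) * (N - Complex.I * D) + (Complex.I * β / 2) * (N + Complex.I * D) := by
    linear_combination (-((β : ℂ) * D / 2)) * hI
  rw [e1, e2]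
  generalize N + Complex.I * D = h at *
  generalize N - Complex.I * D = f at *
  field_simp
  ring

end Pool.Agent.VQ
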